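import Pool.Agent.H80.DP.DLE
import Pool.Agent.H29.EX.Targets

/-!
# DLX: expansion of the left side, for exponents up to two
-/

set_option autoImplicit false

open Complex MeasureTheory Filter Topology

namespace Pool.Agent.H54.EX

open Pool.Agent.H25.DP Pool.Agent.H25.DL Pool.Agent.H29.EX

theorem pf_DLX (h : T_GX) : T_DLX := by
  intro ι _ f D β hr hD hD1 hβ
  letI := Classical.decEq ι
  obtain ⟨T₁, hT₁⟩ := h β hβ
  obtain ⟨C, hC, hCN⟩ := Pool.Agent.H92.DL.cn ι f 1 D hD one_pos hr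
  have hev : ∀ᶠ T : ℝ in atTop, C * Real.log T ^ C ≤ T ^ (4 : ℝ) := by
    have h1 := (isLittleO_log_rpow_rpow_atTop C (by norm_num : (0 : ℝ) < 4)).def
      (c := 1 / C) (by positivity)
    filter_upwards [h1, eventually_ge_atTop 1] with T hT hT1
    rw [Real.norm_of_nonneg (Real.rpow_nonneg (Real.log_nonneg hT1) _),
      Real.norm_of_nonneg (Real.rpow_nonneg (by linarith) _)] at hT
    calc C * Real.log T ^ C ≤ C * (1 / C * T ^ (4 : ℝ)) := mul_le_mul_of_nonneg_left hT hC.le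
      _ = T ^ (4 : ℝ) := by field_simp
  obtain ⟨T₂, hT₂⟩ := eventually_atTop.mp hev
  refine ⟨max (max T₁ T₂) 3, fun T hT u ξ => ?_⟩
  have hTT₁ : T₁ ≤ T := le_trans (le_trans (le_max_left _ _) (le_max_left _ _)) hT
  have hTT₂ : T₂ ≤ T := le_trans (le_trans (le_max_right _ _) (le_max_left _ _)) hT
  have hT3 : 3 ≤ T := le_trans (le_max_right _ _) hT
  have hT0 : 0 < T := by linarith
  obtain ⟨hcard, hprod⟩ := hCN T hT3
  have hdis : ((mains f 1 D T : Finset (ι → ℕ)) : Set (ι → ℕ)).PairwiseDisjoint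
      (fun j => Fintype.piFinset fun l => Finset.Ico (2 ^ j l) (2 ^ (j l + 1))) := by
    intro j _ j' _ hjj
    rw [Function.onFun, Finset.disjoint_left]
    intro z hz hz'
    apply hjj
    funext l
    rw [Fintype.mem_piFinset] at hz hz'
    have h1 := Finset.mem_Ico.1 (hz l)
    have h2 := Finset.mem_Ico.1 (hz' l)
    rw [← Nat.log_eq_of_pow_le_of_lt_pow h1.1 h1.2, ← Nat.log_eq_of_pow_le_of_lt_pow h2.1 h2.2]
  have hTU : ∑ z ∈ TU f D T, (starRingEnd ℂ) (co f z) * cexp ((u * lam f z : ℝ) * I) *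
        (Real.exp (-(β ^ 2 * (lam f z - ξ) ^ 2 / 4)) : ℂ) =
      ∑ j ∈ mains f 1 D T,
        ∑ z ∈ Fintype.piFinset (fun l => Finset.Ico (2 ^ (j l)) (2 ^ (j l + 1))),
        (starRingEnd ℂ) (co f z) * cexp ((u * lam f z : ℝ) * I) *
        (Real.exp (-(β ^ 2 * (lam f z - ξ) ^ 2 / 4)) : ℂ) := by
    unfold TU
    exact Finset.sum_biUnion hdis
  rw [hTU, ← Finset.sum_sub_distrib]
  have hterm : ∀ j ∈ mains f 1 D T, ‖LX f β ξ (Real.log T) j u -
      ∑ z ∈ Fintype.piFinset (fun l => Finset.Ico (2 ^ (j l)) (2 ^ (j l + 1))),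
        (starRingEnd ℂ) (co f z) * cexp ((u * lam f z : ℝ) * I) *
        (Real.exp (-(β ^ 2 * (lam f z - ξ) ^ 2 / 4)) : ℂ)‖ ≤ T * T ^ (-10 : ℝ) := by
    intro j hj
    rw [Pool.Agent.H80.DP.LX_eq, ← Finset.sum_sub_distrib]
    have h1 : ∀ x : ι → ℕ, ‖(starRingEnd ℂ) (co f x) * cexp ((u * lam f x : ℝ) * I) *
        (∫ y in (-Real.log T)..(Real.log T), cexp (((lam f x - ξ) * y : ℝ) * I) * gs β (y * I)) -
        (starRingEnd ℂ) (co f x) * cexp ((u * lam f x : ℝ) * I) *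
        (Real.exp (-(β ^ 2 * (lam f x - ξ) ^ 2 / 4)) : ℂ)‖ ≤ ‖co f x‖ * T ^ (-10 : ℝ) := by
      intro x
      rw [← mul_sub, norm_mul, norm_mul, RCLike.norm_conj, Complex.norm_exp_ofReal_mul_I, mul_one]
      exact mul_le_mul_of_nonneg_left (hT₁ T hTT₁ _) (norm_nonneg _)
    refine (norm_sum_le _ _).trans ((Finset.sum_le_sum fun x _ => h1 x).trans ?_)
    rw [← Finset.sum_mul]
    apply mul_le_mul_of_nonneg_right _ (Real.rpow_nonneg hT0.le _)
    have h2 := Pool.Agent.H92.DL.coef_sum f j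
    have h3 := hprod j hj
    have h4 : T ^ (D / (2 * 1)) ≤ T := by
      calc T ^ (D / (2 * 1)) ≤ T ^ (1 : ℝ) := by
            apply Real.rpow_le_rpow_of_exponent_le (by linarith)
            linarith
        _ = T := Real.rpow_one T
    exact h2.trans (h3.trans h4)
  refine (norm_sum_le _ _).trans ((Finset.sum_le_sum hterm).trans ?_)
  rw [Finset.sum_const, nsmul_eq_mul]
  have h5 := hT₂ T hTT₂
  have h6 : ((mains f 1 D T).card : ℝ) ≤ T ^ (4 : ℝ) := hcard.trans h5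
  calc ((mains f 1 D T).card : ℝ) * (T * T ^ (-10 : ℝ)) ≤
        T ^ (4 : ℝ) * (T * T ^ (-10 : ℝ)) := by
        apply mul_le_mul_of_nonneg_right h6
        have := Real.rpow_nonneg hT0.le (-10 : ℝ)
        positivity
    _ = T ^ (-5 : ℝ) := by
        nth_rewrite 2 [← Real.rpow_one T]
        rw [← Real.rpow_add hT0, ← Real.rpow_add hT0]
        norm_num

end Pool.Agent.H54.EX
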