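import Pool.Agent.H92.EX.Targets

set_option autoImplicit false

open MeasureTheory ProbabilityTheory Filter Topology Finset

namespace Pool.Agent.H54.EX

open Pool.Agent.H92.EX

/-- the exponent -/
noncomputable def SZ (Z : ℕ → (ℕ → Bool) → ℝ) (B : Finset ℕ) (x : ℕ → Bool) : ℝ :=
  ∑ j ∈ B, sg (x j) * Z j x

theorem SZ_congr (Z : ℕ → (ℕ → Bool) → ℝ) (n : ℕ)
    (hZ : ∀ j x y, (∀ i < j, x i = y i) → Z j x = Z j y) (B : Finset ℕ) (hB : ∀ j ∈ B, j < n)
    (x y : ℕ → Bool) (h : ∀ i < n, x i = y i) : SZ Z B x = SZ Z B y := by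
  unfold SZ
  refine Finset.sum_congr rfl fun j hj => ?_
  rw [h j (hB j hj), hZ j x y fun i hi => h i (hi.trans (hB j hj))]

theorem ext_snoc_lt {n : ℕ} (w : Fin n → Bool) (b : Bool) (i : ℕ) (hi : i < n) :
    ext (Fin.snoc w b : Fin (n + 1) → Bool) i = ext w i := by
  unfold Pool.Agent.H92.EX.ext
  rw [dif_pos (Nat.lt_succ_of_lt hi), dif_pos hi]
  exact Fin.snoc_castSucc (α := fun _ => Bool) b w ⟨i, hi⟩

theorem ext_snoc_last {n : ℕ} (w : Fin n → Bool) (b : Bool) :
    ext (Fin.snoc w b : Fin (n + 1) → Bool) n = b := by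
  unfold Pool.Agent.H92.EX.ext
  rw [dif_pos (Nat.lt_succ_self n)]
  exact Fin.snoc_last (α := fun _ => Bool) b w

theorem sum_snoc (n : ℕ) (f : (Fin (n + 1) → Bool) → ℝ) :
    ∑ w, f w = ∑ w : Fin n → Bool,
      (f (Fin.snoc w true : Fin (n + 1) → Bool) + f (Fin.snoc w false : Fin (n + 1) → Bool)) := by
  rw [← (Fin.snocEquiv (fun _ : Fin (n + 1) => Bool)).sum_comp f, Fintype.sum_prod_type_right]
  refine Finset.sum_congr rfl fun w _ => ?_
  rw [Fintype.sum_bool]
  rfl

theorem cosh_step (a z t c : ℝ) (hz : |z| ≤ c) :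
    Real.exp (t * (a + sg true * z)) + Real.exp (t * (a + sg false * z)) ≤
      2 * Real.exp (t * a) * Real.exp (t ^ 2 * c ^ 2 / 2) := by
  have h1 : Real.exp (t * (a + sg true * z)) + Real.exp (t * (a + sg false * z)) =
      2 * Real.exp (t * a) * Real.cosh (t * z) := by
    rw [Real.cosh_eq]
    have e1 : t * (a + sg true * z) = t * a + (-(t * z)) := by
      simp only [sg, if_true]
      ring
    have e2 : t * (a + sg false * z) = t * a + t * z := by
      simp only [sg]
      simp
      ring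
    rw [e1, e2, Real.exp_add, Real.exp_add]
    ring
  rw [h1]
  refine mul_le_mul_of_nonneg_left ?_ (by positivity)
  refine (Real.cosh_le_exp_half_sq _).trans ?_
  refine Real.exp_le_exp.2 ?_
  have h2 : z ^ 2 ≤ c ^ 2 := by
    rw [← sq_abs z]
    exact pow_le_pow_left₀ (abs_nonneg z) hz 2
  have h3 : t ^ 2 * z ^ 2 ≤ t ^ 2 * c ^ 2 := mul_le_mul_of_nonneg_left h2 (sq_nonneg t)
  rw [mul_pow]
  linarith

theorem mgf (Z : ℕ → (ℕ → Bool) → ℝ) (c t : ℝ)
    (hZ : ∀ j x y, (∀ i < j, x i = y i) → Z j x = Z j y) :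
    ∀ (n : ℕ) (B : Finset ℕ), (∀ j ∈ B, j < n) → (∀ j ∈ B, ∀ x, |Z j x| ≤ c) →
    ∑ w : Fin n → Bool, Real.exp (t * SZ Z B (ext w)) ≤
      2 ^ n * Real.exp (t ^ 2 * c ^ 2 / 2 * B.card) := by
  intro n
  induction n with
  | zero =>
    intro B hB _
    have hB0 : B = ∅ := by
      refine Finset.eq_empty_of_forall_notMem fun j hj => ?_
      exact absurd (hB j hj) (Nat.not_lt_zero j)
    subst hB0
    simp [SZ]
  | succ n ih =>
    intro B hB hb
    rw [sum_snoc]
    by_cases hn : n ∈ B
    · have hB' : ∀ j ∈ B.erase n, j < n := by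
        intro j hj
        have h1 := hB j (Finset.mem_of_mem_erase hj)
        have h2 := Finset.ne_of_mem_erase hj
        omega
      have hb' : ∀ j ∈ B.erase n, ∀ x, |Z j x| ≤ c := fun j hj =>
        hb j (Finset.mem_of_mem_erase hj)
      have hcard : ((B.erase n).card : ℝ) + 1 = B.card := by
        have := Finset.card_erase_add_one hn
        exact_mod_cast this
      have hstep : ∀ (w : Fin n → Bool) (b : Bool),
          SZ Z B (ext (Fin.snoc w b : Fin (n + 1) → Bool)) =
            SZ Z (B.erase n) (ext w) + sg b * Z n (ext w) := by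
        intro w b
        have h1 : SZ Z B (ext (Fin.snoc w b : Fin (n + 1) → Bool)) =
            SZ Z (B.erase n) (ext (Fin.snoc w b : Fin (n + 1) → Bool)) +
              sg (ext (Fin.snoc w b : Fin (n + 1) → Bool) n) *
                Z n (ext (Fin.snoc w b : Fin (n + 1) → Bool)) := by
          unfold SZ
          rw [Finset.sum_erase_add _ _ hn]
        rw [h1, ext_snoc_last, SZ_congr Z n hZ _ hB' _ (ext w) fun i hi => ext_snoc_lt w b i hi,
          hZ n _ (ext w) fun i hi => ext_snoc_lt w b i hi]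
      calc ∑ w : Fin n → Bool,
            (Real.exp (t * SZ Z B (ext (Fin.snoc w true : Fin (n + 1) → Bool))) +
              Real.exp (t * SZ Z B (ext (Fin.snoc w false : Fin (n + 1) → Bool))))
          ≤ ∑ w : Fin n → Bool, 2 * Real.exp (t * SZ Z (B.erase n) (ext w)) *
              Real.exp (t ^ 2 * c ^ 2 / 2) := by
            refine Finset.sum_le_sum fun w _ => ?_
            rw [hstep, hstep]
            exact cosh_step _ _ t c (hb n hn _)
        _ = 2 * Real.exp (t ^ 2 * c ^ 2 / 2) *
              ∑ w : Fin n → Bool, Real.exp (t * SZ Z (B.erase n) (ext w)) := by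
            rw [Finset.mul_sum]
            refine Finset.sum_congr rfl fun w _ => ?_
            ring
        _ ≤ 2 * Real.exp (t ^ 2 * c ^ 2 / 2) *
              (2 ^ n * Real.exp (t ^ 2 * c ^ 2 / 2 * (B.erase n).card)) :=
            mul_le_mul_of_nonneg_left (ih _ hB' hb') (by positivity)
        _ = 2 ^ (n + 1) * Real.exp (t ^ 2 * c ^ 2 / 2 * B.card) := by
            rw [← hcard, mul_add, Real.exp_add, mul_one]
            ring
    · have hB' : ∀ j ∈ B, j < n := by
        intro j hj
        have h1 := hB j hj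
        have h2 : j ≠ n := fun h => hn (h ▸ hj)
        omega
      have hstep : ∀ (w : Fin n → Bool) (b : Bool),
          SZ Z B (ext (Fin.snoc w b : Fin (n + 1) → Bool)) = SZ Z B (ext w) := fun w b =>
        SZ_congr Z n hZ _ hB' _ (ext w) fun i hi => ext_snoc_lt w b i hi
      have h1 : ∑ w : Fin n → Bool,
            (Real.exp (t * SZ Z B (ext (Fin.snoc w true : Fin (n + 1) → Bool))) +
              Real.exp (t * SZ Z B (ext (Fin.snoc w false : Fin (n + 1) → Bool)))) =
          2 * ∑ w : Fin n → Bool, Real.exp (t * SZ Z B (ext w)) := by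
        rw [Finset.mul_sum]
        refine Finset.sum_congr rfl fun w _ => ?_
        rw [hstep, hstep]
        ring
      rw [h1]
      have h2 := ih B hB' hb
      calc 2 * ∑ w : Fin n → Bool, Real.exp (t * SZ Z B (ext w))
          ≤ 2 * (2 ^ n * Real.exp (t ^ 2 * c ^ 2 / 2 * B.card)) :=
            mul_le_mul_of_nonneg_left h2 (by norm_num)
        _ = 2 ^ (n + 1) * Real.exp (t ^ 2 * c ^ 2 / 2 * B.card) := by ring

theorem pf_XAZU : T_AZU := by
  classical
  intro n Z c lam B hZ hc hlam hB hb hne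
  have hcard : (0 : ℝ) < B.card := by exact_mod_cast hne.card_pos
  set t : ℝ := lam / (B.card * c ^ 2) with ht
  have hden : (0 : ℝ) < B.card * c ^ 2 := by positivity
  have htp : 0 < t := div_pos hlam hden
  have h1 := mgf Z c t hZ n B hB hb
  have h2 := mgf Z c (-t) hZ n B hB hb
  rw [neg_sq] at h2
  have hcount : (Fintype.card {w : Fin n → Bool //
      lam < |∑ j ∈ B, sg (ext w j) * Z j (ext w)|} : ℝ) * Real.exp (t * lam) ≤
      ∑ w : Fin n → Bool, (Real.exp (t * SZ Z B (ext w)) + Real.exp (-t * SZ Z B (ext w))) := by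
    rw [Fintype.card_subtype]
    have h3 : ((Finset.univ.filter fun w : Fin n → Bool =>
        lam < |∑ j ∈ B, sg (ext w j) * Z j (ext w)|).card : ℝ) * Real.exp (t * lam) =
        ∑ w ∈ Finset.univ.filter (fun w : Fin n → Bool =>
        lam < |∑ j ∈ B, sg (ext w j) * Z j (ext w)|), Real.exp (t * lam) := by
      rw [Finset.sum_const, nsmul_eq_mul]
    rw [h3]
    refine (Finset.sum_le_sum (g := fun w : Fin n → Bool =>
      Real.exp (t * SZ Z B (ext w)) + Real.exp (-t * SZ Z B (ext w))) fun w hw => ?_).trans ?_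
    · have hw' : lam < |SZ Z B (ext w)| := (Finset.mem_filter.1 hw).2
      rcases lt_abs.1 hw' with h | h
      · have h5 : Real.exp (t * lam) ≤ Real.exp (t * SZ Z B (ext w)) :=
          Real.exp_le_exp.2 (mul_le_mul_of_nonneg_left h.le htp.le)
        have h6 := (Real.exp_pos (-t * SZ Z B (ext w))).le
        linarith
      · have h5 : Real.exp (t * lam) ≤ Real.exp (-t * SZ Z B (ext w)) := by
          refine Real.exp_le_exp.2 ?_
          have h7 := mul_le_mul_of_nonneg_left h.le htp.le
          linarith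
        have h6 := (Real.exp_pos (t * SZ Z B (ext w))).le
        linarith
    · exact Finset.sum_le_sum_of_subset_of_nonneg (Finset.filter_subset _ _)
        fun w _ _ => by positivity
  rw [Finset.sum_add_distrib] at hcount
  have h4 : (Fintype.card {w : Fin n → Bool //
      lam < |∑ j ∈ B, sg (ext w j) * Z j (ext w)|} : ℝ) * Real.exp (t * lam) ≤
      2 * 2 ^ n * Real.exp (t ^ 2 * c ^ 2 / 2 * B.card) := by linarith
  have h5 : Real.exp (t ^ 2 * c ^ 2 / 2 * B.card) =
      Real.exp (-(lam ^ 2 / (2 * B.card * c ^ 2))) * Real.exp (t * lam) := by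
    rw [← Real.exp_add]
    congr 1
    rw [ht]
    field_simp
    ring
  rw [h5, ← mul_assoc] at h4
  exact le_of_mul_le_mul_right h4 (Real.exp_pos _)

end Pool.Agent.H54.EX
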